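import Pool.Agent.Helper15.T6.Stmts

set_option autoImplicit false

/-!
T6, module ATL: the Alon-Tarsi link for `d`-regular graphs.
-/

open Finset

namespace Pool.Agent.Helper48.T6

open Pool.Agent.Helper15.T6
open Pool.Agent.Helper15.T4 (IsPM PM cov IsMat nsq po)

namespace Atl

/-! ### Signs -/

theorem epsd_perm {d : ℕ} (π : Equiv.Perm (Fin d)) :
    epsd (⇑π) = ((Equiv.Perm.sign π : ℤˣ) : ℤ) := by
  unfold epsd
  rw [Finset.sum_eq_single π]
  · rw [if_pos rfl]
  · intro π' _ hne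
    rw [if_neg]
    intro h
    exact hne (DFunLike.coe_injective h.symm)
  · intro h
    exact absurd (Finset.mem_univ π) h

theorem epsd_inj {d : ℕ} {f : Fin d → Fin d} (h : epsd f ≠ 0) : Function.Injective f := by
  by_contra hne
  apply h
  unfold epsd
  apply Finset.sum_eq_zero
  intro π _
  rw [if_neg]
  rintro rfl
  exact hne π.injective

theorem epsd_one {d : ℕ} {f : Fin d → Fin d} (h : epsd f ≠ 0) (s : Fin d) :
    ∑ i : Fin d, (if f i = s then 1 else 0 : ℕ) = 1 := by
  have hi := epsd_inj h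
  obtain ⟨i, hs⟩ := (Finite.injective_iff_surjective.1 hi) s
  rw [Finset.sum_eq_single i]
  · rw [if_pos hs]
  · intro j _ hj
    rw [if_neg]
    intro h2
    exact hj (hi (h2.trans hs.symm))
  · intro h2
    exact absurd (Finset.mem_univ i) h2

/-- The Vandermonde determinant of `0, 1, ..., d - 1`. -/
noncomputable def D0 (d : ℕ) : ℚ := (Matrix.vandermonde (fun i : Fin d => ((i : ℕ) : ℚ))).det

theorem D0_ne (d : ℕ) : D0 d ≠ 0 := by
  unfold D0
  rw [Matrix.det_vandermonde_ne_zero_iff]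
  intro i j hij
  have h1 : ((i : ℕ) : ℚ) = ((j : ℕ) : ℚ) := hij
  exact Fin.ext (by exact_mod_cast h1)

theorem vdm_eps {d : ℕ} (f : Fin d → Fin d) :
    ∏ i : Fin d, ∏ j ∈ Finset.Ioi i, ((((f j : Fin d) : ℕ) : ℚ) - (((f i : Fin d) : ℕ) : ℚ)) =
      D0 d * ((epsd f : ℤ) : ℚ) := by
  rw [← Matrix.det_vandermonde (fun i : Fin d => (((f i : Fin d) : ℕ) : ℚ))]
  by_cases hf : Function.Injective f
  · obtain ⟨π, rfl⟩ : ∃ π : Equiv.Perm (Fin d), ⇑π = f :=
      ⟨Equiv.ofBijective f (Finite.injective_iff_bijective.1 hf), rfl⟩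
    have h1 : Matrix.vandermonde (fun i : Fin d => (((π i : Fin d) : ℕ) : ℚ)) =
        (Matrix.vandermonde (fun i : Fin d => ((i : ℕ) : ℚ))).submatrix π id := rfl
    rw [h1, Matrix.det_permute, epsd_perm, D0, mul_comm]
  · have h0 : epsd f = 0 := by
      by_contra h
      exact hf (epsd_inj h)
    rw [h0, Matrix.det_vandermonde_eq_zero_iff.2]
    · simp
    · unfold Function.Injective at hf
      push Not at hf
      obtain ⟨i, j, hij, hne⟩ := hf
      exact ⟨i, j, by rw [hij], hne⟩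

/-! ### The coefficient -/

section Coeff

variable {E : Type} [Fintype E] [DecidableEq E]

/-- weights of the grid `{0, ..., d - 1}` -/
noncomputable def cw {d : ℕ} (s : Fin d) : ℚ :=
  1 / ∏ t ∈ univ.erase s, (((s : ℕ) : ℚ) - ((t : ℕ) : ℚ))

theorem cw_ne {d : ℕ} (s : Fin d) : cw s ≠ 0 := by
  unfold cw
  apply one_div_ne_zero
  rw [Finset.prod_ne_zero_iff]
  intro t ht h
  apply (Finset.mem_erase.1 ht).1
  have h1 : ((s : ℕ) : ℚ) = ((t : ℕ) : ℚ) := sub_eq_zero.1 h
  exact (Fin.ext (by exact_mod_cast h1)).symm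

theorem cw_sum {d : ℕ} (j : ℕ) (hj : j < d) :
    ∑ s : Fin d, cw s * ((s : ℕ) : ℚ) ^ j = if d - 1 = j then 1 else 0 := by
  have h1 := Lagrange.coeff_eq_sum (s := (univ : Finset (Fin d))) (v := fun s : Fin d => ((s : ℕ) : ℚ))
    (fun a _ b _ hab => Fin.ext (by
      have h2 : ((a : ℕ) : ℚ) = ((b : ℕ) : ℚ) := hab
      exact_mod_cast h2)) (P := Polynomial.X ^ j) (by
        rw [Polynomial.degree_X_pow, Finset.card_univ, Fintype.card_fin]
        exact_mod_cast hj)
  rw [Finset.card_univ, Fintype.card_fin, Polynomial.coeff_X_pow] at h1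
  rw [h1]
  apply Finset.sum_congr rfl
  intro s _
  rw [Polynomial.eval_pow, Polynomial.eval_X]
  unfold cw
  rw [one_div, mul_comm, div_eq_mul_inv]

/-- the exponent `d - 1` for all variables -/
noncomputable def tt (d : ℕ) (E : Type) [Fintype E] : E →₀ ℕ :=
  Finsupp.equivFunOnFinite.symm (fun _ => d - 1)

theorem tt_apply (d : ℕ) (e : E) : tt d E e = d - 1 := rfl

theorem lam_monomial {d : ℕ} (hd : 1 ≤ d) (m : E →₀ ℕ) (hm : m.degree = (d - 1) * Fintype.card E) :
    ∑ x : E → Fin d, (∏ e, cw (x e)) * ∏ e, (((x e : Fin d) : ℕ) : ℚ) ^ (m e) =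
      if m = tt d E then 1 else 0 := by
  have h1 : ∑ x : E → Fin d, (∏ e, cw (x e)) * ∏ e, (((x e : Fin d) : ℕ) : ℚ) ^ (m e) =
      ∏ e : E, ∑ s : Fin d, cw s * ((s : ℕ) : ℚ) ^ (m e) := by
    rw [Finset.prod_univ_sum, Fintype.piFinset_univ]
    exact Finset.sum_congr rfl (fun x _ => by rw [Finset.prod_mul_distrib])
  rw [h1]
  by_cases h2 : ∃ e, m e < d - 1
  · obtain ⟨e, he⟩ := h2
    rw [if_neg]
    · apply Finset.prod_eq_zero (Finset.mem_univ e)
      rw [cw_sum _ (by omega), if_neg (by omega)]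
    · rintro rfl
      rw [tt_apply] at he
      omega
  · push Not at h2
    have h3 : ∀ e, m e = d - 1 := by
      by_contra hne
      push Not at hne
      obtain ⟨e, he⟩ := hne
      have h4 : ∑ e : E, (d - 1) < ∑ e : E, m e :=
        Finset.sum_lt_sum (fun e _ => h2 e) ⟨e, Finset.mem_univ e, lt_of_le_of_ne (h2 e) he.symm⟩
      rw [Finsupp.degree_eq_sum] at hm
      rw [hm, Finset.sum_const, Finset.card_univ, smul_eq_mul, mul_comm] at h4
      exact lt_irrefl _ h4
    rw [if_pos]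
    · exact Finset.prod_eq_one (fun e _ => by rw [h3 e, cw_sum _ (by omega), if_pos rfl])
    · ext e
      rw [h3 e, tt_apply]

theorem lam_coeff {d : ℕ} (hd : 1 ≤ d) (G : MvPolynomial E ℚ)
    (hG : G.IsHomogeneous ((d - 1) * Fintype.card E)) :
    ∑ x : E → Fin d, (∏ e, cw (x e)) * MvPolynomial.eval (fun e => (((x e : Fin d) : ℕ) : ℚ)) G =
      G.coeff (tt d E) := by
  have h1 : ∀ x : E → Fin d, MvPolynomial.eval (fun e => (((x e : Fin d) : ℕ) : ℚ)) G =
      ∑ m ∈ G.support, G.coeff m * ∏ e, (((x e : Fin d) : ℕ) : ℚ) ^ (m e) := by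
    intro x
    rw [MvPolynomial.eval_eq']
  simp_rw [h1, Finset.mul_sum]
  rw [Finset.sum_comm]
  have h2 : ∀ m ∈ G.support, ∑ x : E → Fin d, (∏ e, cw (x e)) *
      (G.coeff m * ∏ e, (((x e : Fin d) : ℕ) : ℚ) ^ (m e)) =
      if m = tt d E then G.coeff (tt d E) else 0 := by
    intro m hm
    have hdg : m.degree = (d - 1) * Fintype.card E := by
      by_contra hne
      exact (MvPolynomial.mem_support_iff.1 hm) (hG.coeff_eq_zero hne)
    have h3 := lam_monomial hd m hdg
    have h4 : ∑ x : E → Fin d, (∏ e, cw (x e)) *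
        (G.coeff m * ∏ e, (((x e : Fin d) : ℕ) : ℚ) ^ (m e)) =
        G.coeff m * ∑ x : E → Fin d, (∏ e, cw (x e)) *
          ∏ e, (((x e : Fin d) : ℕ) : ℚ) ^ (m e) := by
      rw [Finset.mul_sum]
      exact Finset.sum_congr rfl (fun x _ => by ring)
    rw [h4, h3]
    split_ifs with h5
    · rw [h5, mul_one]
    · rw [mul_zero]
  rw [Finset.sum_congr rfl h2, Finset.sum_ite_eq']
  split_ifs with h6
  · rfl
  · exact (MvPolynomial.notMem_support_iff.1 h6).symm

variable {n d : ℕ} (eh : HE n d → E)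

/-- the graph polynomial of the line graph -/
noncomputable def FF : MvPolynomial E ℚ :=
  ∏ v : Fin n, ∏ i : Fin d, ∏ j ∈ Finset.Ioi i,
    (MvPolynomial.X (eh (v, j)) - MvPolynomial.X (eh (v, i)))

/-- its degree -/
theorem deg_sum (n d : ℕ) : 2 * ∑ _v : Fin n, ∑ i : Fin d, ∑ _j ∈ Finset.Ioi i, 1 =
    (d - 1) * (d * n) := by
  have h1 : ∀ i : Fin d, ∑ _j ∈ Finset.Ioi i, 1 = d - 1 - (i : ℕ) := by
    intro i
    rw [Finset.sum_const, smul_eq_mul, mul_one, Fin.card_Ioi]
  have h2 : ∑ i : Fin d, ∑ _j ∈ Finset.Ioi i, 1 = ∑ i ∈ Finset.range d, i := by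
    rw [Finset.sum_congr rfl (fun i _ => h1 i), Fin.sum_univ_eq_sum_range (fun i => d - 1 - i) d,
      Finset.sum_range_reflect (fun i => i) d]
  rw [Finset.sum_congr rfl (fun _ _ => h2), Finset.sum_const, Finset.card_univ, Fintype.card_fin,
    smul_eq_mul]
  have h3 := Finset.sum_range_id_mul_two d
  calc 2 * (n * ∑ i ∈ Finset.range d, i) = n * ((∑ i ∈ Finset.range d, i) * 2) := by ring
    _ = n * (d * (d - 1)) := by rw [h3]
    _ = (d - 1) * (d * n) := by ring

theorem FF_hom : (FF eh).IsHomogeneous (∑ _v : Fin n, ∑ i : Fin d, ∑ _j ∈ Finset.Ioi i, 1) := by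
  unfold FF
  apply MvPolynomial.IsHomogeneous.prod
  intro v _
  apply MvPolynomial.IsHomogeneous.prod
  intro i _
  apply MvPolynomial.IsHomogeneous.prod
  intro j _
  exact (MvPolynomial.isHomogeneous_X _ _).sub (MvPolynomial.isHomogeneous_X _ _)

theorem FF_eval (x : E → Fin d) :
    MvPolynomial.eval (fun e => (((x e : Fin d) : ℕ) : ℚ)) (FF eh) =
      D0 d ^ n * ∏ v : Fin n, ((epsd (fun i => x (eh (v, i))) : ℤ) : ℚ) := by
  unfold FF
  rw [map_prod]
  have : ∀ v : Fin n, MvPolynomial.eval (fun e => (((x e : Fin d) : ℕ) : ℚ))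
      (∏ i : Fin d, ∏ j ∈ Finset.Ioi i,
        (MvPolynomial.X (eh (v, j)) - MvPolynomial.X (eh (v, i)))) =
      D0 d * ((epsd (fun i => x (eh (v, i))) : ℤ) : ℚ) := by
    intro v
    rw [← vdm_eps, map_prod]
    apply Finset.prod_congr rfl
    intro i _
    rw [map_prod]
    apply Finset.prod_congr rfl
    intro j _
    rw [map_sub, MvPolynomial.eval_X, MvPolynomial.eval_X]
  simp_rw [this]
  rw [Finset.prod_mul_distrib, Finset.prod_const, Finset.card_univ, Fintype.card_fin]

variable (hf : ∀ e : E, (univ.filter (fun h : HE n d => eh h = e)).card = 2)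

include hf in
theorem card_E : d * n = 2 * Fintype.card E := by
  have h1 := Finset.card_eq_sum_card_fiberwise (s := (univ : Finset (HE n d)))
    (t := (univ : Finset E)) (f := eh) (fun _ _ => Finset.mem_univ _)
  simp_rw [hf] at h1
  rw [Finset.sum_const, Finset.card_univ, Finset.card_univ, Fintype.card_prod, Fintype.card_fin,
    Fintype.card_fin, smul_eq_mul] at h1
  rw [mul_comm d n, h1, mul_comm]

include hf in
theorem deg_eq : ∑ _v : Fin n, ∑ i : Fin d, ∑ _j ∈ Finset.Ioi i, 1 = (d - 1) * Fintype.card E := by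
  have h1 := deg_sum n d
  rw [card_E eh hf] at h1
  have h2 : (d - 1) * (2 * Fintype.card E) = 2 * ((d - 1) * Fintype.card E) := by ring
  omega

include hf in
theorem cw_prod (x : E → Fin d) (hx : (∏ v : Fin n, epsd (fun i => x (eh (v, i)))) ≠ 0) :
    ∏ e, cw (x e) = ∏ s : Fin d, cw s ^ (n / 2) := by
  have h1 : ∏ e, cw (x e) = ∏ s : Fin d, cw s ^ (univ.filter (fun e => x e = s)).card := by
    rw [← Finset.prod_fiberwise univ x (fun e => cw (x e))]
    apply Finset.prod_congr rfl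
    intro s _
    rw [Finset.prod_congr rfl (fun e he => by rw [(Finset.mem_filter.1 he).2]), Finset.prod_const]
  have h2 : ∀ s : Fin d, 2 * (univ.filter (fun e => x e = s)).card = n := by
    intro s
    have h3 : ∑ h : HE n d, (if x (eh h) = s then 1 else 0 : ℕ) = n := by
      rw [Fintype.sum_prod_type]
      have h4 : ∀ v : Fin n, ∑ a : Fin d, (if x (eh (v, a)) = s then 1 else 0 : ℕ) = 1 := fun v =>
        epsd_one (Finset.prod_ne_zero_iff.1 hx v (Finset.mem_univ v)) s
      rw [Finset.sum_congr rfl (fun v _ => h4 v)]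
      simp
    have h5 : ∑ h : HE n d, (if x (eh h) = s then 1 else 0 : ℕ) =
        ∑ e : E, ∑ h ∈ univ.filter (fun h : HE n d => eh h = e), (if x (eh h) = s then 1 else 0 : ℕ) :=
      (Finset.sum_fiberwise _ _ _).symm
    have h6 : ∀ e : E, ∑ h ∈ univ.filter (fun h : HE n d => eh h = e),
        (if x (eh h) = s then 1 else 0 : ℕ) = if x e = s then 2 else 0 := by
      intro e
      have : ∀ h ∈ univ.filter (fun h : HE n d => eh h = e), (if x (eh h) = s then 1 else 0 : ℕ) =
          if x e = s then 1 else 0 := by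
        intro h hh
        rw [(Finset.mem_filter.1 hh).2]
      rw [Finset.sum_congr rfl this, Finset.sum_const, hf e]
      split_ifs <;> simp
    rw [h5, Finset.sum_congr rfl (fun e _ => h6 e), ← Finset.sum_filter, Finset.sum_const] at h3
    rw [smul_eq_mul] at h3
    omega
  rw [h1]
  apply Finset.prod_congr rfl
  intro s _
  have h8 : (univ.filter (fun e => x e = s)).card = n / 2 := by
    have := h2 s
    omega
  rw [h8]

include hf in
theorem coeff_ne (hd : 1 ≤ d) (hz : ∑ x : E → Fin d, ∏ v : Fin n,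
    epsd (fun i => x (eh (v, i))) ≠ 0) : (FF eh).coeff (tt d E) ≠ 0 := by
  have hh : (FF eh).IsHomogeneous ((d - 1) * Fintype.card E) := by
    rw [← deg_eq eh hf]
    exact FF_hom eh
  rw [← lam_coeff hd (FF eh) hh]
  have h1 : ∀ x : E → Fin d, (∏ e, cw (x e)) *
      MvPolynomial.eval (fun e => (((x e : Fin d) : ℕ) : ℚ)) (FF eh) =
      ((∏ s : Fin d, cw s ^ (n / 2)) * D0 d ^ n) *
        ((∏ v : Fin n, epsd (fun i => x (eh (v, i))) : ℤ) : ℚ) := by
    intro x
    rw [FF_eval]
    by_cases h0 : (∏ v : Fin n, epsd (fun i => x (eh (v, i)))) = 0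
    · rw [h0, ← Int.cast_prod, h0]
      simp
    · rw [cw_prod eh hf x h0]
      push_cast
      ring
  rw [Finset.sum_congr rfl (fun x _ => h1 x), ← Finset.mul_sum, ← Int.cast_sum]
  apply mul_ne_zero
  · apply mul_ne_zero
    · rw [Finset.prod_ne_zero_iff]
      exact fun s _ => pow_ne_zero _ (cw_ne s)
    · exact pow_ne_zero _ (D0_ne d)
  · exact_mod_cast hz

include hf in
/-- the choice of the colours -/
theorem choice (hd : 1 ≤ d) (hz : ∑ x : E → Fin d, ∏ v : Fin n,
    epsd (fun i => x (eh (v, i))) ≠ 0) (L : E → Finset ℕ)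
    (hL : ∀ e, d ≤ (L e).card) :
    ∃ f : E → ℕ, (∀ e, f e ∈ L e) ∧ ∀ (v : Fin n) (a b : Fin d), a ≠ b →
      f (eh (v, a)) ≠ f (eh (v, b)) := by
  have h1 := coeff_ne eh hf hd hz
  have hne : FF eh ≠ 0 := by
    intro h0
    rw [h0] at h1
    exact h1 (MvPolynomial.coeff_zero _)
  have hdeg : (FF eh).totalDegree = (tt d E).degree := by
    rw [(FF_hom eh).totalDegree hne, deg_eq eh hf, Finsupp.degree_eq_sum]
    simp [tt_apply, mul_comm]
  obtain ⟨s, hs1, hs2⟩ := MvPolynomial.combinatorial_nullstellensatz_exists_eval_nonzero (FF eh)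
    (tt d E) h1 hdeg (fun e => (L e).image (fun k : ℕ => (k : ℚ))) (fun e => by
      rw [tt_apply, Finset.card_image_of_injective _ Nat.cast_injective]
      have := hL e
      omega)
  have h2 : ∀ e, ∃ k : ℕ, k ∈ L e ∧ (k : ℚ) = s e := fun e => by
    have := hs1 e
    rw [Finset.mem_image] at this
    exact this
  choose f hfm hfs using h2
  refine ⟨f, hfm, ?_⟩
  unfold FF at hs2
  rw [map_prod] at hs2
  have h3 : ∀ (v : Fin n) (i j : Fin d), i < j → f (eh (v, i)) ≠ f (eh (v, j)) := by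
    intro v i j hij h
    have h4 := Finset.prod_ne_zero_iff.1 hs2 v (Finset.mem_univ v)
    rw [map_prod] at h4
    have h5 := Finset.prod_ne_zero_iff.1 h4 i (Finset.mem_univ i)
    rw [map_prod] at h5
    have h6 := Finset.prod_ne_zero_iff.1 h5 j (Finset.mem_Ioi.2 hij)
    rw [map_sub, MvPolynomial.eval_X, MvPolynomial.eval_X, ← hfs (eh (v, i)), ← hfs (eh (v, j)), h,
      sub_self] at h6
    exact h6 rfl
  intro v a b hab
  rcases lt_or_gt_of_ne hab with h | h
  · exact h3 v a b h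
  · exact (h3 v b a h).symm

end Coeff

/-! ### The graph of a pairing -/

section Graph

open Classical in
theorem link (n d : ℕ) (hd : 1 ≤ d) (M : Finset (Sym2 (HE n d))) (hM : M ∈ PM (univ : Finset (HE n d)))
    (hC : Reg d 3 (Gr M)) : ∃ eh : HE n d → (Gr M).edgeSet,
      (∀ e, (univ.filter (fun h : HE n d => eh h = e)).card = 2) ∧
      (∀ (v : Fin n) (e : (Gr M).edgeSet), v ∈ (e : Sym2 (Fin n)) → ∃ a, eh (v, a) = e) ∧
      Zc M = ∑ x : (Gr M).edgeSet → Fin d, ∏ v : Fin n,
        epsd (fun i => x (eh (v, i))) := by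
  obtain ⟨m1, -, m3⟩ : IsPM (univ : Finset (HE n d)) M := (Finset.mem_filter.1 hM).2
  have hp : ∀ h : HE n d, ∃ h', s(h, h') ∈ M ∧ h' ≠ h := by
    intro h
    obtain ⟨e, ⟨he1, he2⟩, -⟩ := m3 h (Finset.mem_univ h)
    obtain ⟨h', rfl⟩ := Sym2.mem_iff_exists.1 he2
    refine ⟨h', he1, fun hh => m1 _ he1 ?_⟩
    rw [hh]
    exact Sym2.mk_isDiag_iff.2 rfl
  choose p hp1 hp2 using hp
  have hu : ∀ h h', s(h, h') ∈ M → h' = p h := by
    intro h h' hh
    obtain ⟨e, -, he⟩ := m3 h (Finset.mem_univ h)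
    have h1 := he _ ⟨hh, Sym2.mem_mk_left _ _⟩
    have h2 := he _ ⟨hp1 h, Sym2.mem_mk_left _ _⟩
    exact Sym2.congr_right.1 (h1.trans h2.symm)
  have hpp : ∀ h, p (p h) = h := fun h => (hu (p h) h (by rw [Sym2.eq_swap]; exact hp1 h)).symm
  have hg : ∀ v : Fin n, Function.Injective (fun a : Fin d => (p (v, a)).1) ∧
      ∀ a : Fin d, (p (v, a)).1 ≠ v := by
    intro v
    have h3 := hC.1 v
    have hsub : (Gr M).neighborSet v ⊆
        (((univ : Finset (Fin d)).image (fun a => (p (v, a)).1)).erase v : Finset (Fin n)) := by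
      rintro w ⟨hw1, a, b, hw2⟩
      rw [Finset.mem_coe, Finset.mem_erase]
      refine ⟨hw1.symm, Finset.mem_image.2 ⟨a, Finset.mem_univ a, ?_⟩⟩
      rw [← hu _ _ hw2]
    have h4 : d ≤ (((univ : Finset (Fin d)).image (fun a => (p (v, a)).1)).erase v).card := by
      have h0 := Set.ncard_le_ncard hsub (Finset.finite_toSet _)
      rw [Set.ncard_coe_finset] at h0
      exact le_trans (le_of_eq h3.symm) h0
    have h5 : ((univ : Finset (Fin d)).image (fun a => (p (v, a)).1)).card ≤ d :=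
      Finset.card_image_le.trans (by simp)
    have h6 := Finset.card_erase_le (s := (univ : Finset (Fin d)).image (fun a => (p (v, a)).1))
      (a := v)
    constructor
    · have h7 : ((univ : Finset (Fin d)).image (fun a => (p (v, a)).1)).card =
          (univ : Finset (Fin d)).card := by
        rw [Finset.card_univ, Fintype.card_fin]
        omega
      have h8 := Finset.card_image_iff.1 h7
      intro a b hab
      exact h8 (Finset.mem_coe.2 (Finset.mem_univ a)) (Finset.mem_coe.2 (Finset.mem_univ b)) hab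
    · intro a ha
      have h9 : v ∈ (univ : Finset (Fin d)).image (fun a => (p (v, a)).1) :=
        Finset.mem_image.2 ⟨a, Finset.mem_univ a, ha⟩
      rw [Finset.card_erase_of_mem h9] at h4
      omega
  have hadj : ∀ h : HE n d, (Gr M).Adj h.1 (p h).1 := fun h =>
    ⟨((hg h.1).2 h.2).symm, h.2, (p h).2, hp1 h⟩
  have hfib : ∀ (v w : Fin n) (a b : Fin d), p (v, a) = (w, b) → ∀ h : HE n d,
      s(h.1, (p h).1) = s(v, w) ↔ h = (v, a) ∨ h = (w, b) := by
    intro v w a b hab h
    have hba : p (w, b) = (v, a) := by rw [← hab, hpp]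
    constructor
    · intro h1
      rcases Sym2.eq_iff.1 h1 with ⟨h2, h3⟩ | ⟨h2, h3⟩
      · left
        have h4 : (p (v, h.2)).1 = (p (v, a)).1 := by
          rw [hab, ← h2]
          exact h3
        have h5 := (hg v).1 h4
        exact Prod.ext h2 h5
      · right
        have h4 : (p (w, h.2)).1 = (p (w, b)).1 := by
          rw [hba, ← h2]
          exact h3
        have h5 := (hg w).1 h4
        exact Prod.ext h2 h5
    · rintro (rfl | rfl)
      · rw [hab]
      · rw [hba, Sym2.eq_swap]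
  let eh : HE n d → (Gr M).edgeSet := fun h => ⟨s(h.1, (p h).1), (SimpleGraph.mem_edgeSet _).2 (hadj h)⟩
  have hkey : ∀ e : (Gr M).edgeSet, ∃ (v w : Fin n) (a b : Fin d), (e : Sym2 (Fin n)) = s(v, w) ∧
      v ≠ w ∧ p (v, a) = (w, b) := by
    rintro ⟨e, he⟩
    induction e using Sym2.ind with
    | _ v w =>
      obtain ⟨h1, a, b, h2⟩ := (SimpleGraph.mem_edgeSet _).1 he
      exact ⟨v, w, a, b, rfl, h1, (hu _ _ h2).symm⟩
  have heh : ∀ (h : HE n d) (e : (Gr M).edgeSet) (v w : Fin n) (a b : Fin d),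
      (e : Sym2 (Fin n)) = s(v, w) → p (v, a) = (w, b) → (eh h = e ↔ h = (v, a) ∨ h = (w, b)) := by
    intro h e v w a b he hab
    rw [← hfib v w a b hab h, ← he]
    exact Subtype.ext_iff
  have hmem : ∀ (v : Fin n) (e : (Gr M).edgeSet), v ∈ (e : Sym2 (Fin n)) → ∃ a, eh (v, a) = e := by
    intro v e hv
    obtain ⟨v', w', a, b, he, -, hab⟩ := hkey e
    rw [he, Sym2.mem_iff] at hv
    rcases hv with rfl | rfl
    · exact ⟨a, (heh _ e _ _ a b he hab).2 (Or.inl rfl)⟩
    · exact ⟨b, (heh _ e _ _ a b he hab).2 (Or.inr rfl)⟩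
  have hpe : ∀ h, eh (p h) = eh h := by
    intro h
    apply Subtype.ext
    change s((p h).1, (p (p h)).1) = s(h.1, (p h).1)
    rw [hpp, Sym2.eq_swap]
  have hee : ∀ h h', eh h = eh h' → h = h' ∨ h = p h' := by
    intro h h' hh
    have := (heh h (eh h') h'.1 (p h').1 h'.2 (p h').2 rfl rfl).1 hh
    exact this
  refine ⟨eh, ?_, hmem, ?_⟩
  · intro e
    obtain ⟨v, w, a, b, he, hvw, hab⟩ := hkey e
    have h1 : univ.filter (fun h : HE n d => eh h = e) = {(v, a), (w, b)} := by
      ext h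
      rw [Finset.mem_filter, Finset.mem_insert, Finset.mem_singleton]
      constructor
      · rintro ⟨-, h2⟩
        exact (heh h e v w a b he hab).1 h2
      · intro h2
        exact ⟨Finset.mem_univ h, (heh h e v w a b he hab).2 h2⟩
    rw [h1]
    apply Finset.card_pair
    intro h2
    exact hvw (congrArg Prod.fst h2)
  · have hsurj : Function.Surjective eh := by
      intro e
      obtain ⟨v, w, a, b, he, -, hab⟩ := hkey e
      exact ⟨(v, a), (heh _ e v w a b he hab).2 (Or.inl rfl)⟩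
    unfold Zc
    symm
    apply Finset.sum_bij (fun (x : (Gr M).edgeSet → Fin d) _ => fun h => x (eh h))
    · intro x _
      rw [Finset.mem_filter]
      refine ⟨Finset.mem_univ _, fun h h' hh => ?_⟩
      rw [hu h h' hh]
      change x (eh h) = x (eh (p h))
      rw [hpe]
    · intro x _ y _ hxy
      funext e
      obtain ⟨h, rfl⟩ := hsurj e
      exact congrFun hxy h
    · intro σ hσ
      have h1 := (Finset.mem_filter.1 hσ).2
      choose r hr using hsurj
      refine ⟨fun e => σ (r e), Finset.mem_univ _, ?_⟩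
      funext h
      rcases hee _ _ (hr (eh h)) with h2 | h2
      · change σ (r (eh h)) = σ h
        rw [h2]
      · change σ (r (eh h)) = σ h
        rw [h2]
        exact (h1 h (p h) (hp1 h)).symm
    · intro x _
      rfl

end Graph

end Atl

/-- ATL: the Alon-Tarsi link. -/
theorem st_ATL : ST_ATL := by
  classical
  intro n d hd M hM hC hz L hL
  obtain ⟨eh, h1, h2, h3⟩ := Atl.link n d hd M hM hC
  rw [h3] at hz
  obtain ⟨f, hf1, hf2⟩ := Atl.choice eh (fun e => by
    have := h1 e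
    exact this) hd hz L hL
  refine ⟨f, hf1, ?_⟩
  intro e e' hee
  obtain ⟨hne, v, hv1, hv2⟩ := hee
  obtain ⟨a, ha⟩ := h2 v e hv1
  obtain ⟨b, hb⟩ := h2 v e' hv2
  have hab : a ≠ b := by
    rintro rfl
    exact hne (ha.symm.trans hb)
  rw [← ha, ← hb]
  exact hf2 v a b hab

end Pool.Agent.Helper48.T6
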