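import Mathlib
import Pool.Agent.Helper15.T6.Stmts

set_option autoImplicit false

open Finset

namespace Pool.Agent.Helper48.T6

open Pool.Agent.Helper15.T6
open Pool.Agent.Helper15.T4 (IsPM PM cov IsMat nsq po)

namespace GIR2aux

variable {n d : ℕ} {M : Finset (Sym2 (HE n d))}

theorem ex_partner (hM : IsPM (univ : Finset (HE n d)) M) (h : HE n d) : ∃ h' : HE n d, s(h, h') ∈ M := by
  obtain ⟨e, ⟨he, hh⟩, -⟩ := hM.2.2 h (mem_univ _)
  obtain ⟨h', rfl⟩ := hh
  exact ⟨h', he⟩

theorem partner_unique (hM : IsPM (univ : Finset (HE n d)) M) {h a b : HE n d} (ha : s(h, a) ∈ M)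
    (hb : s(h, b) ∈ M) : a = b := by
  have he := (hM.2.2 h (mem_univ _)).unique ⟨ha, Sym2.mem_mk_left h a⟩ ⟨hb, Sym2.mem_mk_left h b⟩
  exact Sym2.congr_right.mp he

theorem no_loop {g : ℕ} (hg : 3 ≤ g) (hM : IsPM (univ : Finset (HE n d)) M) (hS : NoShort g M)
    {v w : Fin n} {a b : Fin d} (h : s((v, a), (w, b)) ∈ M) : v ≠ w := by
  rintro rfl
  have hab : a ≠ b := by
    rintro rfl
    exact hM.1 _ h (Sym2.mk_isDiag_iff.mpr rfl)
  apply hS 0 (by omega) (fun _ => (v, b, a))
  · refine ⟨fun i j _ => Fin.ext (by omega), fun i => hab.symm⟩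
  · intro e he
    simp only [E, mem_image, mem_univ, true_and] at he
    obtain ⟨i, rfl⟩ := he
    exact h

theorem no_double {g : ℕ} (hg : 3 ≤ g) (hM : IsPM (univ : Finset (HE n d)) M) (hS : NoShort g M)
    {v w : Fin n} {a a' b b' : Fin d} (h : s((v, a), (w, b)) ∈ M) (h' : s((v, a'), (w, b')) ∈ M) :
    a = a' := by
  by_contra hne
  have hvw : v ≠ w := no_loop hg hM hS h
  have hbb : b ≠ b' := by
    rintro rfl
    have := partner_unique hM (h := (w, b)) (a := (v, a)) (b := (v, a'))
      (by rwa [Sym2.eq_swap]) (by rwa [Sym2.eq_swap])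
    exact hne (Prod.ext_iff.mp this).2
  apply hS 1 (by omega) (fun i => if i = 0 then (v, a', a) else (w, b, b'))
  · refine ⟨?_, ?_⟩
    · intro i j hij
      fin_cases i <;> fin_cases j
      · rfl
      · exact absurd hij hvw
      · exact absurd hij hvw.symm
      · rfl
    · intro i
      fin_cases i
      · exact fun h => hne h.symm
      · exact hbb
  · intro e he
    simp only [E, mem_image, mem_univ, true_and] at he
    obtain ⟨i, rfl⟩ := he
    fin_cases i
    · exact h
    · change s((w, b'), (v, a')) ∈ M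
      rwa [Sym2.eq_swap]

theorem ncard_three {g : ℕ} (hg : 3 ≤ g) (hM : IsPM (univ : Finset (HE n d)) M) (hS : NoShort g M)
    (v : Fin n) : Set.ncard ((Gr M).neighborSet v) = d := by
  choose q hq using fun a : Fin d => ex_partner hM (v, a)
  have hinj : Function.Injective (fun a : Fin d => (q a).1) := by
    intro a b hab
    have h1 : s((v, a), ((q a).1, (q a).2)) ∈ M := hq a
    have h2 : s((v, b), ((q b).1, (q b).2)) ∈ M := hq b
    have hab' : (q a).1 = (q b).1 := hab
    rw [← hab'] at h2
    exact no_double hg hM hS h1 h2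
  have hset : (Gr M).neighborSet v = Set.range (fun a : Fin d => (q a).1) := by
    ext w
    constructor
    · rintro ⟨-, a, b, hab⟩
      refine ⟨a, ?_⟩
      have := partner_unique hM (hq a) hab
      simp only [this]
    · rintro ⟨a, rfl⟩
      have h1 : s((v, a), ((q a).1, (q a).2)) ∈ M := hq a
      exact ⟨no_loop hg hM hS h1, a, (q a).2, h1⟩
  rw [hset, ← Set.image_univ, Set.ncard_image_of_injective _ hinj, Set.ncard_univ, Nat.card_fin]

theorem cycle_len {g : ℕ} (hM : IsPM (univ : Finset (HE n d)) M) (hS : NoShort g M)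
    {u : Fin n} (p : (Gr M).Walk u u) (hp : p.IsCycle) : g ≤ p.length := by
  by_contra hlt
  push Not at hlt
  have h3 : 3 ≤ p.length := hp.three_le_length
  obtain ⟨k, hk⟩ : ∃ k, p.length = k + 1 := ⟨p.length - 1, by omega⟩
  have hk2 : 2 ≤ k := by omega
  let v : Fin (k + 1) → Fin n := fun i => p.getVert i.val
  have hsucc : ∀ i : Fin (k + 1), v (i + 1) = p.getVert (i.val + 1) := by
    intro i
    change p.getVert (i + 1 : Fin (k + 1)).val = _
    by_cases hi : i.val = k
    · have h1 : (i + 1 : Fin (k + 1)).val = 0 := by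
        rw [Fin.val_add, Fin.val_one', hi]
        have : (1 : ℕ) % (k + 1) = 1 := Nat.mod_eq_of_lt (by omega)
        rw [this, Nat.mod_self]
      rw [h1, hi, p.getVert_zero, ← hk, p.getVert_length]
    · have h1 : (i + 1 : Fin (k + 1)).val = i.val + 1 := by
        rw [Fin.val_add, Fin.val_one']
        have h2 : (1 : ℕ) % (k + 1) = 1 := Nat.mod_eq_of_lt (by omega)
        have h3 := i.isLt
        rw [h2, Nat.mod_eq_of_lt (by omega)]
      rw [h1]
  have hadj : ∀ i : Fin (k + 1), (Gr M).Adj (v i) (v (i + 1)) := by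
    intro i
    rw [hsucc i]
    exact p.adj_getVert_succ (by have := i.isLt; omega)
  have hex : ∀ i : Fin (k + 1), ∃ ba : Fin d × Fin d, s((v i, ba.1), (v (i + 1), ba.2)) ∈ M := by
    intro i
    obtain ⟨-, b, a, hba⟩ := hadj i
    exact ⟨(b, a), hba⟩
  choose ba hba using hex
  have hvinj : Function.Injective v := by
    intro i j hij
    apply Fin.ext
    exact hp.getVert_injOn' (by simp only [Set.mem_ofPred_eq]; have := i.isLt; omega)
      (by simp only [Set.mem_ofPred_eq]; have := j.isLt; omega) hij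
  apply hS k (by omega) (fun i => (v i, (ba (i - 1)).2, (ba i).1))
  · refine ⟨hvinj, ?_⟩
    intro i heq
    change (ba (i - 1)).2 = (ba i).1 at heq
    have h1 := hba (i - 1)
    rw [sub_add_cancel] at h1
    have h2 := hba i
    rw [Sym2.eq_swap, heq] at h1
    have h3 := partner_unique hM h1 h2
    have h4 : v (i - 1) = v (i + 1) := (Prod.ext_iff.mp h3).1
    have h5 := hvinj h4
    have h6 : (1 : Fin (k + 1)) + 1 = 0 := by
      have h7 : i = i + 1 + 1 := by
        calc i = i - 1 + 1 := (sub_add_cancel i 1).symm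
          _ = i + 1 + 1 := by rw [h5]
      have h8 : i + (1 + 1) = i + 0 := by rw [add_zero, ← add_assoc]; exact h7.symm
      exact add_left_cancel h8
    have h9 := congrArg Fin.val h6
    rw [Fin.val_add, Fin.val_one'] at h9
    have h10 : (1 : ℕ) % (k + 1) = 1 := Nat.mod_eq_of_lt (by omega)
    rw [h10, Nat.mod_eq_of_lt (by omega)] at h9
    simp at h9
  · intro e he
    simp only [E, mem_image, mem_univ, true_and] at he
    obtain ⟨i, rfl⟩ := he
    have h1 := hba i
    rw [add_sub_cancel_right]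
    exact h1

end GIR2aux

theorem st_GIR2 : ST_GIR2 := by
  intro n d g M hg hPM hS
  have hM : IsPM (univ : Finset (HE n d)) M := by
    simpa [PM] using hPM
  exact ⟨fun v => GIR2aux.ncard_three hg hM hS v, fun u p hp => GIR2aux.cycle_len hM hS p hp⟩

end Pool.Agent.Helper48.T6
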