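import Pool.Agent.Helper15.T6.Stmts

set_option autoImplicit false

/-!
T6, module PSI0: the integrand for the empty partial matching.
-/

open Finset

namespace Pool.Agent.Helper48.T6

open Pool.Agent.Helper15.T6
open Pool.Agent.Helper15.T4 (IsPM PM cov IsMat nsq po)

theorem st_PSI0 : ST_PSI0 := by
  classical
  intro d L _ w n x
  have hc : (cov (∅ : Finset (Sym2 (HE n d))))ᶜ = (univ : Finset (HE n d)) := by
    ext h
    simp [cov]
  have hf : (univ : Finset (HE n d → L)).filter
      (fun σ => Eqn (∅ : Finset (Sym2 (HE n d))) σ) = univ := by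
    ext σ
    simp [Eqn]
  unfold Psi PW
  rw [hc, hf]
  let F : (Fin d → L) → ℝ := fun t => w t * ∏ j : Fin d, x (t j)
  have h1 : ∀ σ : HE n d → L, (∏ v, w (fun i => σ (v, i))) *
      ∏ h ∈ (univ : Finset (HE n d)), x (σ h) = ∏ v : Fin n, F (fun j => σ (v, j)) := by
    intro σ
    rw [Fintype.prod_prod_type, ← Finset.prod_mul_distrib]
  rw [Finset.sum_congr rfl (fun σ _ => h1 σ)]
  have h2 : ∑ σ : HE n d → L, ∏ v : Fin n, F (fun j => σ (v, j)) =
      ∑ τ : Fin n → Fin d → L, ∏ v : Fin n, F (τ v) := by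
    refine Fintype.sum_equiv (Equiv.curry (Fin n) (Fin d) L) _ _ ?_
    intro σ
    rfl
  have h3 : ∑ τ : Fin n → Fin d → L, ∏ v : Fin n, F (τ v) = (∑ t : Fin d → L, F t) ^ n := by
    have := (Finset.prod_univ_sum (fun _ : Fin n => (univ : Finset (Fin d → L))) (fun _ t => F t)).symm
    rw [Finset.prod_const, Finset.card_univ, Fintype.card_fin] at this
    rw [← this]
    apply Finset.sum_congr _ (fun _ _ => rfl)
    ext τ
    simp
  rw [h2, h3]

end Pool.Agent.Helper48.T6
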